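import Pool.Agent.Run7.h253.Final

/-!
# MP_3ab0ed_al, Q1: a proper non-abelian variety all of whose free groups have torsion-free homology

The variety: `n` a prime, `n ≥ 10 ^ 170`, laws `[u ^ n, z]` with `u` in the commutator subgroup, that is, the
class of all groups `G` such that `(G')^n` is central.  See `Pool/Agent/Run7/h253/Overview.lean` for the proof.
-/

set_option autoImplicit false

namespace Pool.Agent.Results.MP_3ab0ed_al.TorsionFreeHomology

open scoped commutatorElement

/-- `G` satisfies the laws `W`, that is, `G` belongs to the variety of groups defined by `W` -/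
def Satisfies (W : Set (FreeGroup ℕ)) (G : Type*) [Group G] : Prop :=
  ∀ w ∈ W, ∀ φ : FreeGroup ℕ →* G, φ w = 1

/-- the verbal subgroup of `G` for the laws `W`: the subgroup generated by all values in `G` of
the elements of `W` -/
def verbal (W : Set (FreeGroup ℕ)) (G : Type*) [Group G] : Subgroup G :=
  Subgroup.closure {g | ∃ w ∈ W, ∃ φ : FreeGroup ℕ →* G, g = φ w}

instance verbalNormal (W : Set (FreeGroup ℕ)) (G : Type*) [Group G] : (verbal W G).Normal :=
  inferInstanceAs (Run7.h253.verbal W G).Normal

/-- the variety defined by `W` is not the variety of all groups -/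
def IsProper (W : Set (FreeGroup ℕ)) : Prop :=
  ∃ (H : Type) (_ : Group H), ¬ Satisfies W H

/-- the variety defined by `W` contains a non-abelian group -/
def IsNonabelian (W : Set (FreeGroup ℕ)) : Prop :=
  ∃ (H : Type) (_ : Group H), Satisfies W H ∧ ∃ a b : H, a * b ≠ b * a

/-- for every set `X`, the free group `FreeGroup X ⧸ verbal W (FreeGroup X)` on `X` of the
variety defined by `W` has torsion-free integral homology in all dimensions `k ≥ 1` -/
def HasTorsionFreeHomology (W : Set (FreeGroup ℕ)) : Prop :=
  ∀ (X : Type) (k : ℕ), 1 ≤ k → ∀ (m : ℤ)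
    (x : groupHomology (Rep.trivial ℤ (FreeGroup X ⧸ verbal W (FreeGroup X)) ℤ) k),
    m ≠ 0 → m • x = 0 → x = 0

/-- the laws `[u ^ n, z]`, `u` in the commutator subgroup: they say that `(G')^n` is central -/
def laws (n : ℕ) : Set (FreeGroup ℕ) :=
  {w | ∃ u ∈ commutator (FreeGroup ℕ), ∃ z : FreeGroup ℕ, w = ⁅u ^ n, z⁆}

/-- For every prime `n ≥ 10 ^ 170` the variety of groups defined by the laws `[u ^ n, z]` (`u` a product of
commutators) is proper and non-abelian and all its free groups have torsion-free integral
homology in all dimensions.  In particular there is such a variety. -/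
theorem result :
    (∀ n : ℕ, n.Prime → 10 ^ 170 ≤ n →
      IsProper (laws n) ∧ IsNonabelian (laws n) ∧ HasTorsionFreeHomology (laws n)) ∧
    ∃ W : Set (FreeGroup ℕ), IsProper W ∧ IsNonabelian W ∧ HasTorsionFreeHomology W := by
  have main : ∀ n : ℕ, n.Prime → 10 ^ 170 ≤ n →
      IsProper (laws n) ∧ IsNonabelian (laws n) ∧ HasTorsionFreeHomology (laws n) := by
    intro n hn hbig
    refine ⟨?_, Run7.h253.sat_nonab, fun X k hk => Run7.h253.laws_tf hn hbig X k hk⟩
    obtain ⟨w, hw, hw1⟩ := Run7.h253.laws_proper hn.ne_zero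
    exact ⟨FreeGroup ℕ, inferInstance, fun h => hw1 (h w hw (MonoidHom.id _))⟩
  refine ⟨main, ?_⟩
  obtain ⟨n, hbig, hn⟩ := Nat.exists_infinite_primes (10 ^ 170)
  exact ⟨laws n, main n hn hbig⟩

end Pool.Agent.Results.MP_3ab0ed_al.TorsionFreeHomology
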